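import Pool.Agent.H125R2.ET.Main

/-!
# Base sets and blocks which cover intervals `[x, M x)` with `M` as large as we please
-/

set_option autoImplicit false

namespace Pool.Agent.Helper667_ET

open Finset Pool.Agent.H125R2.ET Pool.Agent.H125R2.ET.T4

/-- the sumset of `D` contains `[6 p ^ 2, 2 J p ^ 2)` -/
def Wide (J p : ℕ) (D : Finset ℕ) : Prop :=
  ∀ n, 6 * p ^ 2 ≤ n → n < 2 * J * p ^ 2 → ∃ a ∈ D, ∃ b ∈ D, a + b = n

theorem wide_main (J C : ℕ) (hJ : 2 ^ 20 ≤ 2 * J) (h1 : 2 * J + 3 ≤ C) (h2 : (1 + 3 * J) * 3 ≤ C)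
    (h3 : (1 + 3 * J) * (1 + 3 * J) * 18 ≤ C) (p : ℕ) (hp7 : 7 < p) (E : Finset (ℕ × ℕ))
    (hE : IsLocal p E) : IsBase C p ((Sft J p ×ˢ E).image (fun x => val p x.1 x.2)) ∧
      Wide J p ((Sft J p ×ˢ E).image (fun x => val p x.1 x.2)) := by
  have hp : 0 < p := by omega
  have hmem : ∀ a, a ∈ (Sft J p ×ˢ E).image (fun x => val p x.1 x.2) ↔
      ∃ σ ∈ Sft J p, ∃ e ∈ E, val p σ e = a := by
    intro a
    rw [mem_image]
    constructor
    · rintro ⟨⟨σ, e⟩, hx, rfl⟩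
      rw [mem_product] at hx
      exact ⟨σ, hx.1, e, hx.2, rfl⟩
    · rintro ⟨σ, hσ, e, he, rfl⟩
      exact ⟨(σ, e), mem_product.2 ⟨hσ, he⟩, rfl⟩
  have hwide : Wide J p ((Sft J p ×ˢ E).image (fun x => val p x.1 x.2)) := by
    intro n hn1 hn2
    obtain ⟨m, hm⟩ : ∃ m, n = 2 * p ^ 2 + m := ⟨n - 2 * p ^ 2, by omega⟩
    set s := m % (2 * p) with hs
    set t := m / (2 * p) with ht
    have hmst : m = s + 2 * p * t := by rw [hs, ht]; exact (Nat.mod_add_div _ _).symm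
    have hs2 : s < 2 * p := Nat.mod_lt _ (by omega)
    have ht2 : 2 * p ≤ t := by
      rw [ht, Nat.le_div_iff_mul_le (by omega)]
      have : 2 * p * (2 * p) = 4 * p ^ 2 := by ring
      omega
    have htJ : t < J * p := by
      rw [ht, Nat.div_lt_iff_lt_mul (by omega)]
      have : J * p * (2 * p) = 2 * J * p ^ 2 := by ring
      rw [this]
      omega
    obtain ⟨e, he, f, hf, hes, het⟩ := hE.cover s t
    have he1 := hE.lt e he
    have hf1 := hE.lt f hf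
    -- the second digit
    obtain ⟨j, hj⟩ : ∃ j, t = e.2 + f.2 + p * j := by
      have hle : e.2 + f.2 ≤ t := by omega
      have := (Nat.modEq_iff_dvd' hle).1 het
      obtain ⟨j, hj⟩ := this
      exact ⟨j, by omega⟩
    have hj1 : 1 ≤ j := by
      rcases Nat.eq_zero_or_pos j with h | h
      · rw [h, Nat.mul_zero] at hj; omega
      · exact h
    have hjJ : j ≤ J := by
      by_contra hcon
      have : J * p ≤ p * j := by
        rw [Nat.mul_comm]; exact Nat.mul_le_mul_left _ (by omega)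
      omega
    -- the first digit
    obtain ⟨i, hi, his⟩ : ∃ i < 3, s + p = e.1 + f.1 + i * p := by
      have h6 : e.1 + f.1 ≡ s + p [MOD p] := by
        have : s + p ≡ s [MOD p] := by simp [Nat.ModEq]
        exact hes.trans this.symm
      rcases le_total (e.1 + f.1) (s + p) with hle | hle
      · obtain ⟨i, hi⟩ := (Nat.modEq_iff_dvd' hle).1 h6
        refine ⟨i, ?_, ?_⟩
        · by_contra hcon
          have : p * 3 ≤ p * i := Nat.mul_le_mul_left _ (by omega)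
          omega
        · rw [Nat.mul_comm i p]; omega
      · obtain ⟨i, hi⟩ := (Nat.modEq_iff_dvd' hle).1 h6.symm
        have : i = 0 := by
          by_contra hcon
          have : p * 1 ≤ p * i := Nat.mul_le_mul_left _ (by omega)
          omega
        rw [this, Nat.mul_zero] at hi
        exact ⟨0, by omega, by omega⟩
    refine ⟨val p 0 e, (hmem _).2 ⟨0, mem_insert_self _ _, e, he, rfl⟩,
      val p ((2 * p ^ 2 * j - p) + i * p) f, (hmem _).2 ⟨_, ?_, f, hf, rfl⟩, ?_⟩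
    · apply mem_insert_of_mem
      rw [mem_image]
      exact ⟨(j, i), mem_product.2 ⟨mem_Icc.2 ⟨hj1, hjJ⟩, mem_range.2 hi⟩, rfl⟩
    · have e1 : p ≤ 2 * p ^ 2 * j := le_mul_sq hp hj1
      have e2 : 2 * p * t = 2 * p * e.2 + 2 * p * f.2 + 2 * p ^ 2 * j := by
        rw [hj]; ring
      unfold T4.val
      omega
  refine ⟨⟨?_, ?_, ?_, ?_, ?_⟩, hwide⟩
  · intro a ha
    obtain ⟨σ, hσ, e, he, rfl⟩ := (hmem a).1 ha
    unfold T4.val
    omega
  · intro a ha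
    obtain ⟨σ, hσ, e, he, rfl⟩ := (hmem a).1 ha
    have e1 := hE.lt e he
    have e2 := Sft_le hp hσ
    have e3 : 2 * p * e.2 + 2 * p ≤ 2 * p ^ 2 := by
      have : e.2 + 1 ≤ p := e1.2
      nlinarith
    have e4 : (2 * J + 3) * p ^ 2 ≤ C * p ^ 2 := Nat.mul_le_mul_right _ h1
    have e5 : (2 * J + 3) * p ^ 2 = 2 * p ^ 2 * J + 3 * p ^ 2 := by ring
    have e6 := e1.1
    unfold T4.val
    omega
  · refine card_image_le.trans ?_
    rw [card_product]
    calc (Sft J p).card * E.card ≤ (1 + 3 * J) * (3 * p) :=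
          Nat.mul_le_mul (card_Sft J p) hE.card
      _ = ((1 + 3 * J) * 3) * p := by ring
      _ ≤ C * p := Nat.mul_le_mul_right _ h2
  · intro n hn1 hn2
    exact hwide n hn1 (lt_of_lt_of_le hn2 (Nat.mul_le_mul_right _ hJ))
  · intro n
    have hsub : ((((Sft J p ×ˢ E).image (fun x => val p x.1 x.2)) ×ˢ
        ((Sft J p ×ˢ E).image (fun x => val p x.1 x.2))).filter (fun x => x.1 + x.2 = n)) ⊆
        (Sft J p ×ˢ Sft J p).biUnion (fun ss =>
          ((E ×ˢ E).filter (fun ef => val p ss.1 ef.1 + val p ss.2 ef.2 = n)).image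
            (fun ef => (val p ss.1 ef.1, val p ss.2 ef.2))) := by
      rintro ⟨a, b⟩ h
      rw [mem_filter, mem_product] at h
      obtain ⟨⟨ha, hb⟩, hn⟩ := h
      obtain ⟨σ, hσ, e, he, rfl⟩ := (hmem a).1 ha
      obtain ⟨σ', hσ', f, hf, rfl⟩ := (hmem b).1 hb
      rw [mem_biUnion]
      refine ⟨(σ, σ'), mem_product.2 ⟨hσ, hσ'⟩, ?_⟩
      rw [mem_image]
      exact ⟨(e, f), mem_filter.2 ⟨mem_product.2 ⟨he, hf⟩, hn⟩, rfl⟩
    refine (card_le_card hsub).trans ?_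
    refine (card_biUnion_le_card_mul _ _ 18 ?_).trans ?_
    · intro ss _
      exact card_image_le.trans (fib hp hE n ss.1 ss.2)
    · rw [card_product]
      refine le_trans ?_ h3
      exact Nat.mul_le_mul_right _ (Nat.mul_le_mul (card_Sft J p) (card_Sft J p))

theorem wide_exists (J : ℕ) (hJ : 2 ^ 20 ≤ 2 * J) : ∃ C : ℕ, ∀ p : ℕ, p.Prime → 7 < p →
    ∃ D : Finset ℕ, IsBase C p D ∧ Wide J p D := by
  refine ⟨(1 + 3 * J) * (1 + 3 * J) * 18, fun p hp h7 => ?_⟩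
  have : Fact p.Prime := ⟨hp⟩
  obtain ⟨E, hE⟩ := local_set p hp h7 (local_quad p h7 (exists_z p h7))
  refine ⟨_, wide_main J _ hJ ?_ ?_ le_rfl p h7 E hE⟩
  · nlinarith
  · nlinarith

theorem block_cov_wide (J C p : ℕ) (hp : 0 < p) (h7 : 7 < p) (D : Finset ℕ)
    (hD : IsBase C p D) (hW : Wide J p D) :
    Cov (block p hp D) (11 * p ^ 8) (2 * J * p ^ 8) := by
  have hP := pow_pos hp 2
  obtain ⟨P, hPe⟩ : ∃ P, P = p ^ 2 := ⟨_, rfl⟩
  have hP64 : 64 ≤ P := by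
    rw [hPe]
    calc 64 = 8 ^ 2 := by norm_num
      _ ≤ p ^ 2 := Nat.pow_le_pow_left (by omega) 2
  have hc : ∀ n, 6 * p ^ 2 ≤ n → n < 7 * p ^ 2 → ∃ a ∈ D, ∃ b ∈ D, a + b = n :=
    fun n h1 h2 => hD.cover n h1 (by omega)
  have h0 : Cov (leaf D) (6 * p ^ 2) (2 * J * p ^ 2) := fun _ _ n h1 h2 => hW n h1 h2
  have h1 := Cov_mono_T5 (a' := 9 * P ^ 2) (Cov_step_T5 hP hc h0) (by
    rw [← hPe]
    nlinarith)
  have h2 := Cov_mono_T5 (a' := 10 * P ^ 3) (Cov_step_T5 hP hc h1) (by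
    rw [← hPe]
    have : 2 * P + 7 ≤ P ^ 2 := by nlinarith
    calc P * (9 * P ^ 2 + 2 * P + 7) ≤ P * (9 * P ^ 2 + P ^ 2) :=
          Nat.mul_le_mul_left _ (by omega)
      _ = 10 * P ^ 3 := by ring)
  have h3 := Cov_mono_T5 (a' := 11 * P ^ 4) (Cov_step_T5 hP hc h2) (by
    rw [← hPe]
    have h5 : 2 * P + 7 ≤ P ^ 2 := by nlinarith
    have h6 : P ^ 2 ≤ P ^ 3 := Nat.pow_le_pow_right (by omega) (by norm_num)
    calc P * (10 * P ^ 3 + 2 * P + 7) ≤ P * (10 * P ^ 3 + P ^ 3) :=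
          Nat.mul_le_mul_left _ (by omega)
      _ = 11 * P ^ 4 := by ring)
  have e1 : 11 * p ^ 8 = 11 * P ^ 4 := by rw [hPe]; ring
  have e2 : 2 * J * p ^ 8 = p ^ 2 * (p ^ 2 * (p ^ 2 * (2 * J * p ^ 2))) := by ring
  rw [e1, e2]
  exact h3

theorem exists_sys_wide (J C K : ℕ) (hK : 3 ≤ K)
    (hC : ∀ p : ℕ, p.Prime → 7 < p → ∃ D : Finset ℕ, IsBase C p D ∧ Wide J p D) :
    ∃ s : Sys C K, ∀ i, Wide J (s.p i) (s.D i) := by
  have h1 : ∀ i : ℕ, ∃ p : ℕ, p.Prime ∧ 2 ^ (K + i) < p ∧ p ≤ 2 ^ (K + i + 1) := by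
    intro i
    obtain ⟨p, hp, h1, h2⟩ := Nat.exists_prime_lt_and_le_two_mul (2 ^ (K + i))
      (pow_ne_zero _ two_ne_zero)
    exact ⟨p, hp, h1, by rw [pow_succ]; omega⟩
  choose p hp hlo hhi using h1
  have h7 : ∀ i, 7 < p i := by
    intro i
    have : 2 ^ 3 ≤ 2 ^ (K + i) := Nat.pow_le_pow_right (by norm_num) (by omega)
    have := hlo i
    omega
  have h2 : ∀ i, ∃ D : Finset ℕ, IsBase C (p i) D ∧ Wide J (p i) D :=
    fun i => hC (p i) (hp i) (h7 i)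
  choose D hD using h2
  exact ⟨⟨p, D, hp, hlo, hhi, fun i => (hD i).1⟩, fun i => (hD i).2⟩

end Pool.Agent.Helper667_ET
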