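import Pool.Agent.Helper667_ET.Low
import Pool.Agent.Helper667_ET.Wide

/-!
# The union of the blocks whose scale belongs to a given set of scales
-/

set_option autoImplicit false

namespace Pool.Agent.Helper667_ET

open Finset Pool.Agent.H125R2.ET

/-- a family of blocks, those with index in `P`, the others being empty -/
structure SBlocks (J C K R : ℕ) (p : ℕ → ℕ) (P : ℕ → Prop) (S : ℕ → Finset ℕ) (T : ℕ → ℝ) :
    Prop where
  lo : ∀ i, 2 ^ (K + i) < p i
  hi : ∀ i, p i ≤ 2 ^ (K + i + 1)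
  ge : ∀ i, ∀ s ∈ S i, (p i) ^ 8 ≤ s
  lt : ∀ i, ∀ s ∈ S i, s < (C + 4) * (p i) ^ 8
  card : ∀ i, (S i).card ≤ R * (p i) ^ 4
  emp : ∀ i, ¬ P i → S i = ∅
  cov : ∀ i, P i → ∀ n, 11 * (p i) ^ 8 ≤ n → n < 2 * J * (p i) ^ 8 → ∃ a ∈ S i, ∃ b ∈ S i, a + b = n
  rep : ∀ i n, repF (S i) (S i) n ≤ R
  cross : ∀ i n, ((S i ∩ refl n ((range i).biUnion S)).card : ℝ) ≤ T i

variable {J C K R : ℕ} {p : ℕ → ℕ} {P : ℕ → Prop} {S : ℕ → Finset ℕ} {T : ℕ → ℝ}

theorem s_p_le (h : SBlocks J C K R p P S T) {i j : ℕ} (hij : j ≤ i) : p j ≤ p i := by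
  rcases hij.eq_or_lt with rfl | hlt
  · exact le_rfl
  · have h1 := h.hi j
    have h2 := h.lo i
    have h3 : 2 ^ (K + j + 1) ≤ 2 ^ (K + i) := Nat.pow_le_pow_right (by norm_num) (by omega)
    omega

theorem s_thin (h : SBlocks J C K R p P S T) (x : ℕ) :
    ({a : ℕ | a ∈ bigA S ∧ a ≤ x}.ncard : ℝ) ≤ 32 * R * Real.sqrt x := by
  classical
  set F : Finset ℕ := (range (x + 1)).filter (fun i => p i ^ 8 ≤ x) with hF
  have hsub : {a : ℕ | a ∈ bigA S ∧ a ≤ x} ⊆ ((F.biUnion S : Finset ℕ) : Set ℕ) := by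
    rintro a ⟨⟨i, hi⟩, hax⟩
    rw [Finset.mem_coe, Finset.mem_biUnion]
    refine ⟨i, ?_, hi⟩
    have h1 : p i ^ 8 ≤ x := (h.ge i a hi).trans hax
    rw [hF, Finset.mem_filter, Finset.mem_range]
    refine ⟨?_, h1⟩
    have h2 : i < 2 ^ i := Nat.lt_two_pow_self
    have h3 : 2 ^ i ≤ 2 ^ (K + i) := Nat.pow_le_pow_right (by norm_num) (by omega)
    have h4 := h.lo i
    have h5 : p i ≤ p i ^ 8 := Nat.le_self_pow (by norm_num) _
    omega
  have hcard : {a : ℕ | a ∈ bigA S ∧ a ≤ x}.ncard ≤ ∑ i ∈ F, R * p i ^ 4 := by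
    calc {a : ℕ | a ∈ bigA S ∧ a ≤ x}.ncard ≤ ((F.biUnion S : Finset ℕ) : Set ℕ).ncard :=
          Set.ncard_le_ncard hsub (Finset.finite_toSet _)
      _ = (F.biUnion S).card := Set.ncard_coe_finset _
      _ ≤ ∑ i ∈ F, (S i).card := Finset.card_biUnion_le
      _ ≤ ∑ i ∈ F, R * p i ^ 4 := Finset.sum_le_sum (fun i _ => h.card i)
  rcases F.eq_empty_or_nonempty with hE | hne
  · rw [hE] at hcard
    simp only [Finset.sum_empty, Nat.le_zero] at hcard
    rw [hcard]
    simp only [Nat.cast_zero]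
    positivity
  · set m := F.max' hne with hm
    have hmF : m ∈ F := Finset.max'_mem F hne
    have hmx : p m ^ 8 ≤ x := (Finset.mem_filter.1 hmF).2
    have h1 : ∑ i ∈ F, R * p i ^ 4 ≤ 32 * R * p m ^ 4 := by
      calc ∑ i ∈ F, R * p i ^ 4 ≤ ∑ i ∈ F, R * (16 * 16 ^ (K + i)) := by
            apply Finset.sum_le_sum
            intro i _
            apply Nat.mul_le_mul_left
            calc p i ^ 4 ≤ (2 ^ (K + i + 1)) ^ 4 := Nat.pow_le_pow_left (h.hi i) 4
              _ = 16 * 16 ^ (K + i) := by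
                rw [← pow_mul, mul_comm (K + i + 1) 4, pow_mul, pow_succ]
                norm_num [mul_comm]
        _ ≤ ∑ i ∈ range (m + 1), R * (16 * 16 ^ (K + i)) := by
            apply Finset.sum_le_sum_of_subset
            intro i hi
            rw [Finset.mem_range]
            have := Finset.le_max' F i hi
            omega
        _ = 16 * R * ∑ i ∈ range (m + 1), 16 ^ (K + i) := by
            rw [Finset.mul_sum]
            apply Finset.sum_congr rfl
            intro i _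
            ring
        _ ≤ 16 * R * (2 * 16 ^ (K + m)) := Nat.mul_le_mul_left _ (t20_geom K m)
        _ ≤ 16 * R * (2 * p m ^ 4) := by
            apply Nat.mul_le_mul_left
            apply Nat.mul_le_mul_left
            calc 16 ^ (K + m) = (2 ^ (K + m)) ^ 4 := by
                  rw [← pow_mul, mul_comm (K + m) 4, pow_mul]; norm_num
              _ ≤ p m ^ 4 := Nat.pow_le_pow_left (h.lo m).le 4
        _ = 32 * R * p m ^ 4 := by ring
    have h2 : ((p m : ℝ)) ^ 4 ≤ Real.sqrt x := by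
      apply Real.le_sqrt_of_sq_le
      rw [← pow_mul]
      exact_mod_cast hmx
    calc ({a : ℕ | a ∈ bigA S ∧ a ≤ x}.ncard : ℝ) ≤ ((32 * R * p m ^ 4 : ℕ) : ℝ) := by
          exact_mod_cast hcard.trans h1
      _ = 32 * R * (p m : ℝ) ^ 4 := by push_cast; ring
      _ ≤ 32 * R * Real.sqrt x := by
          apply mul_le_mul_of_nonneg_left h2
          positivity

theorem s_mem (h : SBlocks J C K R p P S T) {i a : ℕ} (ha : a ∈ S i) : P i := by
  by_contra hP
  rw [h.emp i hP] at ha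
  exact absurd ha (Finset.notMem_empty _)

open scoped Classical in
/-- the indices which matter for `n` -/
noncomputable def idx (C : ℕ) (p : ℕ → ℕ) (P : ℕ → Prop) (n : ℕ) : Finset ℕ :=
  (range (n + 1)).filter (fun i => P i ∧ (p i) ^ 8 ≤ n ∧ n < 2 * ((C + 4) * (p i) ^ 8))

theorem s_mem_idx (h : SBlocks J C K R p P S T)
    {i j n a b : ℕ} (hij : j ≤ i) (ha : a ∈ S i) (hb : b ∈ S j) (hab : a + b = n) :
    i ∈ idx C p P n := by
  have h1 := h.ge i a ha
  have h2 := h.lt i a ha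
  have h3 := h.lt j b hb
  have h4 : (p j) ^ 8 ≤ (p i) ^ 8 := Nat.pow_le_pow_left (s_p_le h hij) 8
  have h5 : (C + 4) * (p j) ^ 8 ≤ (C + 4) * (p i) ^ 8 := Nat.mul_le_mul_left _ h4
  have h6 := h.lo i
  have h7 : i < 2 ^ (K + i) := lt_of_le_of_lt (Nat.le_add_left i K) Nat.lt_two_pow_self
  have h8 : p i ≤ (p i) ^ 8 := Nat.le_self_pow (by norm_num) _
  classical
  unfold idx
  exact (@mem_filter _ _ _ _ _).2 ⟨mem_range.2 (by omega), s_mem h ha, by omega, by omega⟩

theorem s_count (h : SBlocks J C K R p P S T) (n : ℕ) :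
    rA (bigA S) n ≤ ∑ i ∈ idx C p P n,
        (repF (S i) (S i) n + 2 * (S i ∩ refl n ((range i).biUnion S)).card) := by
  classical
  set I := idx C p P n with hI
  set T1 : ℕ → Finset (ℕ × ℕ) := fun i => (S i ×ˢ S i).filter (fun x => x.1 + x.2 = n) with hT1
  set L : ℕ → Finset ℕ := fun i => S i ∩ refl n ((range i).biUnion S) with hL
  set T2 : ℕ → Finset (ℕ × ℕ) := fun i => (L i).image (fun b => (n - b, b)) with hT2
  set T3 : ℕ → Finset (ℕ × ℕ) := fun i => (L i).image (fun a => (a, n - a)) with hT3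
  have hsub : {x : ℕ × ℕ | x.1 ∈ bigA S ∧ x.2 ∈ bigA S ∧ x.1 + x.2 = n} ⊆
      ((I.biUnion fun i => T1 i ∪ (T2 i ∪ T3 i) : Finset (ℕ × ℕ)) : Set (ℕ × ℕ)) := by
    rintro ⟨a, b⟩ ⟨⟨ia, ha⟩, ⟨ib, hb⟩, hab⟩
    simp only at ha hb hab
    rw [mem_coe, mem_biUnion]
    have hlow : ∀ {i j c d : ℕ}, i < j → c ∈ S i → d ∈ S j → c + d = n → d ∈ L j := by
      intro i j c d hij hc hd hcd
      simp only [hL]
      rw [mem_inter, mem_refl]
      refine ⟨hd, by omega, ?_⟩
      rw [mem_biUnion]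
      refine ⟨i, mem_range.mpr hij, ?_⟩
      have : n - d = c := by omega
      rw [this]
      exact hc
    rcases lt_trichotomy ia ib with hlt | heq | hgt
    · refine ⟨ib, s_mem_idx h hlt.le hb ha (by omega), ?_⟩
      refine mem_union_right _ (mem_union_left _ ?_)
      simp only [hT2]
      rw [mem_image]
      refine ⟨b, hlow hlt ha hb hab, ?_⟩
      rw [Prod.mk.injEq]
      exact ⟨by omega, rfl⟩
    · subst heq
      refine ⟨ia, s_mem_idx h le_rfl ha hb hab, ?_⟩
      refine mem_union_left _ ?_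
      simp only [hT1]
      rw [mem_filter, mem_product]
      exact ⟨⟨ha, hb⟩, hab⟩
    · refine ⟨ia, s_mem_idx h hgt.le ha hb hab, ?_⟩
      refine mem_union_right _ (mem_union_right _ ?_)
      simp only [hT3]
      rw [mem_image]
      refine ⟨a, hlow hgt hb ha (by omega), ?_⟩
      rw [Prod.mk.injEq]
      exact ⟨rfl, by omega⟩
  calc rA (bigA S) n
      ≤ ((I.biUnion fun i => T1 i ∪ (T2 i ∪ T3 i) : Finset (ℕ × ℕ)) : Set (ℕ × ℕ)).ncard :=
        Set.ncard_le_ncard hsub (Finset.finite_toSet _)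
    _ = (I.biUnion fun i => T1 i ∪ (T2 i ∪ T3 i)).card := Set.ncard_coe_finset _
    _ ≤ ∑ i ∈ I, (T1 i ∪ (T2 i ∪ T3 i)).card := card_biUnion_le
    _ ≤ ∑ i ∈ I, (repF (S i) (S i) n + 2 * (L i).card) := by
        refine Finset.sum_le_sum fun i _ => ?_
        have h1 := card_union_le (T1 i) (T2 i ∪ T3 i)
        have h2 := card_union_le (T2 i) (T3 i)
        have h3 : (T2 i).card ≤ (L i).card := card_image_le
        have h4 : (T3 i).card ≤ (L i).card := card_image_le
        have h5 : (T1 i).card = repF (S i) (S i) n := rfl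
        omega

theorem s_upper (h : SBlocks J C K R p P S T) (n : ℕ) :
    rA (bigA S) n = 0 ∨ ∃ i, P i ∧ 2 ^ (8 * (K + i)) ≤ n ∧
      n ≤ 512 * (C + 4) * 2 ^ (8 * (K + i)) ∧
      (rA (bigA S) n : ℝ) ≤ (512 * (C + 4) : ℕ) * (R + 2 * T i) := by
  classical
  set M : ℕ := 512 * (C + 4) with hM
  set I := idx C p P n with hI
  -- the sandwich
  have hlo : ∀ i ∈ I, 2 ^ (8 * (K + i)) < n := by
    intro i hi
    have h1 := (mem_filter.1 hi).2.2.1
    refine lt_of_lt_of_le ?_ h1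
    rw [mul_comm 8, pow_mul]
    exact Nat.pow_lt_pow_left (h.lo i) (by norm_num)
  have hhi : ∀ i ∈ I, n < M * 2 ^ (8 * (K + i)) := by
    intro i hi
    have h1 := (mem_filter.1 hi).2.2.2
    refine lt_of_lt_of_le h1 ?_
    have h2 : (p i) ^ 8 ≤ 2 ^ (8 * (K + i)) * 256 := by
      calc (p i) ^ 8 ≤ (2 ^ (K + i + 1)) ^ 8 := Nat.pow_le_pow_left (h.hi i) 8
        _ = 2 ^ (8 * (K + i)) * 256 := by
          rw [← pow_mul, show (K + i + 1) * 8 = 8 * (K + i) + 8 by ring, pow_add]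
          norm_num
    calc 2 * ((C + 4) * (p i) ^ 8) ≤ 2 * ((C + 4) * (2 ^ (8 * (K + i)) * 256)) := by gcongr
      _ = M * 2 ^ (8 * (K + i)) := by rw [hM]; ring
  -- few indices
  have hcard : I.card ≤ M := by
    rcases I.eq_empty_or_nonempty with h0 | hne
    · rw [h0]; simp
    · set i0 := I.min' hne with hi0
      have hi0I : i0 ∈ I := Finset.min'_mem I hne
      have hsub : I ⊆ Finset.Ico i0 (i0 + M) := by
        intro j hj
        have hij : i0 ≤ j := Finset.min'_le I j hj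
        rw [Finset.mem_Ico]
        refine ⟨hij, ?_⟩
        by_contra hcon
        push Not at hcon
        have h1 := hlo j hj
        have h2 := hhi i0 hi0I
        have h3 : M * 2 ^ (8 * (K + i0)) ≤ 2 ^ (8 * (K + j)) := by
          calc M * 2 ^ (8 * (K + i0)) ≤ 2 ^ M * 2 ^ (8 * (K + i0)) :=
                Nat.mul_le_mul_right _ Nat.lt_two_pow_self.le
            _ = 2 ^ (M + 8 * (K + i0)) := by rw [pow_add]
            _ ≤ 2 ^ (8 * (K + j)) := Nat.pow_le_pow_right (by norm_num) (by omega)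
        omega
      calc I.card ≤ (Finset.Ico i0 (i0 + M)).card := Finset.card_le_card hsub
        _ = M := by simp
  rcases I.eq_empty_or_nonempty with h0 | hne
  · left
    have := s_count h n
    rw [← hI, h0, Finset.sum_empty] at this
    exact Nat.le_zero.1 this
  · right
    obtain ⟨i, hi, hmax⟩ := Finset.exists_max_image I (fun i => (R : ℝ) + 2 * T i) hne
    have hterm : ∀ j ∈ I, ((repF (S j) (S j) n +
        2 * (S j ∩ refl n ((range j).biUnion S)).card : ℕ) : ℝ) ≤ R + 2 * T i := by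
      intro j hj
      have h1 : (repF (S j) (S j) n : ℝ) ≤ R := by exact_mod_cast h.rep j n
      have h2 := h.cross j n
      have h3 := hmax j hj
      push_cast
      linarith
    have hpos : 0 ≤ (R : ℝ) + 2 * T i := le_trans (Nat.cast_nonneg _) (hterm i hi)
    refine ⟨i, (mem_filter.1 hi).2.1, (hlo i hi).le, (hhi i hi).le, ?_⟩
    calc (rA (bigA S) n : ℝ) ≤ ((∑ i ∈ I, (repF (S i) (S i) n +
          2 * (S i ∩ refl n ((range i).biUnion S)).card) : ℕ) : ℝ) := by
            exact_mod_cast s_count h n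
      _ = ∑ i ∈ I, ((repF (S i) (S i) n +
          2 * (S i ∩ refl n ((range i).biUnion S)).card : ℕ) : ℝ) := by rw [Nat.cast_sum]
      _ ≤ ∑ _i ∈ I, ((R : ℝ) + 2 * T i) := Finset.sum_le_sum hterm
      _ = I.card * ((R : ℝ) + 2 * T i) := by rw [Finset.sum_const, nsmul_eq_mul]
      _ ≤ M * ((R : ℝ) + 2 * T i) := by
          have : (I.card : ℝ) ≤ M := by exact_mod_cast hcard
          exact mul_le_mul_of_nonneg_right this hpos

/-- the distance from `k` to the previous element of `I` (and `k` if there is none) -/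
noncomputable def gap (I : Set ℕ) (k : ℕ) : ℕ := k - sSup {j : ℕ | j ∈ I ∧ j < k}

theorem gap_spec {I : Set ℕ} {j k : ℕ} (hj : j ∈ I) (hjk : j < k) : j + gap I k ≤ k := by
  have hb : BddAbove {j : ℕ | j ∈ I ∧ j < k} := ⟨k, fun i hi => hi.2.le⟩
  have h1 : j ≤ sSup {j : ℕ | j ∈ I ∧ j < k} := le_csSup hb ⟨hj, hjk⟩
  unfold gap
  omega

theorem gap_le (I : Set ℕ) (k : ℕ) : gap I k ≤ k := Nat.sub_le _ _

/-- **Sets of scales.** -/
theorem scales (M0 : ℕ) : ∃ C : ℝ, 0 < C ∧ ∀ I : Set ℕ, ∃ A : Set ℕ,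
    (∀ k ∈ I, C ≤ k → ∀ n : ℕ, 2 ^ (8 * k + 12) ≤ n → n < M0 * 2 ^ (8 * k + 12) →
      ∃ a ∈ A, ∃ b ∈ A, a + b = n) ∧
    (∀ x : ℕ, ({a : ℕ | a ∈ A ∧ a ≤ x}.ncard : ℝ) ≤ C * Real.sqrt x) ∧
    (∀ n : ℕ, rA A n = 0 ∨ ∃ k ∈ I, 2 ^ (8 * k) ≤ n ∧ (n : ℝ) ≤ C * 2 ^ (8 * k) ∧
      3 ≤ k ∧ (rA A n : ℝ) ≤ C * (1 + k / (Real.log k + gap I k))) := by
  classical
  obtain ⟨J, hJdef⟩ : ∃ J : ℕ, J = 2 ^ 19 * (M0 + 1) := ⟨_, rfl⟩
  have hJ : 2 ^ 20 ≤ 2 * J := by
    rw [hJdef]
    calc 2 ^ 20 = 2 * (2 ^ 19 * 1) := by norm_num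
      _ ≤ 2 * (2 ^ 19 * (M0 + 1)) :=
        Nat.mul_le_mul_left _ (Nat.mul_le_mul_left _ (by omega))
  obtain ⟨C, hC⟩ := wide_exists J hJ
  have hM : BlockMom C := block_mom C
  have hR : BlockRange C := block_range C
  obtain ⟨C3, K0, hgood⟩ := good_seq_gap C hR (reg_prob C hM hR) (spr_prob C hM hR)
    (fin_prob_gap C hM hR) (low_class C)
  set K : ℕ := K0 + C + 3 with hKdef
  obtain ⟨s, hwide⟩ := exists_sys_wide J C K (by omega) hC
  obtain ⟨R, hRdef⟩ : ∃ R : ℕ, R = C ^ 4 + C * (2 * C * C) ^ 3 := ⟨_, rfl⟩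
  obtain ⟨M, hMdef⟩ : ∃ M : ℕ, M = 512 * (C + 4) := ⟨_, rfl⟩
  refine ⟨(K + M + 32 * R + M * (R + 2 * C3) : ℕ), by
    have : 0 < K + M + 32 * R + M * (R + 2 * C3) := by omega
    exact_mod_cast this, fun I => ?_⟩
  set P : ℕ → Prop := fun i => K + i ∈ I with hP
  set γ : ℕ → ℕ := fun i => gap I (K + i) with hγ
  obtain ⟨ω, hω⟩ := hgood K (by omega) s P γ
    (fun i j hj hPj => by
      have : (K + j) + gap I (K + i) ≤ K + i := gap_spec hPj (by omega)
      show j + gap I (K + i) ≤ i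
      omega)
    (fun i => gap_le I (K + i))
  have h7 : ∀ i, 7 < s.p i := by
    intro i
    have : 2 ^ 3 ≤ 2 ^ (K + i) := Nat.pow_le_pow_right (by norm_num) (by omega)
    have := s.lo i
    omega
  have hCp : ∀ i, C ≤ s.p i := by
    intro i
    have h1 : K + i < 2 ^ (K + i) := Nat.lt_two_pow_self
    have := s.lo i
    omega
  set S : ℕ → Finset ℕ := keep P (fun i => (s.X i).S (ω i)) with hS
  set T : ℕ → ℝ := fun i => C3 * ((K + i : ℕ) : ℝ) / (Real.log ((K + i : ℕ) : ℝ) + γ i) with hT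
  have hlogpos : ∀ i, 0 < Real.log ((K + i : ℕ) : ℝ) + (γ i : ℝ) := by
    intro i
    have : (1 : ℝ) < ((K + i : ℕ) : ℝ) := by exact_mod_cast (show 1 < K + i by omega)
    have := Real.log_pos this
    positivity
  have hT0 : ∀ i, 0 ≤ T i := fun i => div_nonneg (by positivity) (hlogpos i).le
  have hB : SBlocks J C K R s.p P S T := by
    refine ⟨s.lo, s.hi, ?_, ?_, ?_, ?_, ?_, ?_, ?_⟩
    · intro i a ha
      exact ((hR (s.p i) (s.prime i).pos (h7 i) (hCp i) (s.D i) (s.base i) (ω i)).1 a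
        (keep_sub P _ i ha)).1
    · intro i a ha
      exact ((hR (s.p i) (s.prime i).pos (h7 i) (hCp i) (s.D i) (s.base i) (ω i)).1 a
        (keep_sub P _ i ha)).2
    · intro i
      refine le_trans (card_le_card (keep_sub P _ i)) ?_
      refine le_trans (hR (s.p i) (s.prime i).pos (h7 i) (hCp i) (s.D i) (s.base i) (ω i)).2 ?_
      rw [hRdef]
      exact Nat.mul_le_mul_right _ (Nat.le_add_right _ _)
    · intro i hPi
      exact keep_neg _ hPi
    · intro i hPi n h1 h2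
      have hSi : S i = (s.X i).S (ω i) := keep_pos _ hPi
      obtain ⟨a, ha, b, hb, hab⟩ := block_cov_wide J C (s.p i) (s.prime i).pos (h7 i) (s.D i)
        (s.base i) (hwide i) (ω i) (ω i) n h1 h2
      rw [hSi]
      exact ⟨a, ha, b, hb, hab⟩
    · intro i n
      rw [hRdef]
      refine le_trans ?_ (le_trans (block_rep C (s.p i) (s.prime i).pos (s.D i) (s.base i)
        (ω i) (ω i) n) (Nat.le_add_left _ _))
      unfold repF
      refine card_le_card (filter_subset_filter _ (product_subset_product ?_ ?_))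
      · exact keep_sub P _ i
      · exact keep_sub P _ i
    · intro i n
      by_cases hPi : P i
      · have hSi : S i = (s.X i).S (ω i) := keep_pos _ hPi
        rw [hSi]
        exact hω i n
      · have hSi : S i = ∅ := keep_neg _ hPi
        rw [hSi, Finset.empty_inter, Finset.card_empty, Nat.cast_zero]
        exact hT0 i
  refine ⟨bigA S, ?_, ?_, ?_⟩
  · intro k hk hCk n h1 h2
    have hkK : K ≤ k := by
      have : (K : ℝ) ≤ k := le_trans (by exact_mod_cast (by omega :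
        K ≤ K + M + 32 * R + M * (R + 2 * C3))) hCk
      exact_mod_cast this
    obtain ⟨i, rfl⟩ := Nat.exists_eq_add_of_le hkK
    have e1 : 11 * (s.p i) ^ 8 ≤ n := by
      refine le_trans ?_ h1
      calc 11 * (s.p i) ^ 8 ≤ 11 * (2 ^ (K + i + 1)) ^ 8 :=
            Nat.mul_le_mul_left _ (Nat.pow_le_pow_left (s.hi i) 8)
        _ ≤ 16 * (2 ^ (K + i + 1)) ^ 8 := Nat.mul_le_mul_right _ (by norm_num)
        _ = 2 ^ (8 * (K + i) + 12) := by
            rw [← pow_mul, show (K + i + 1) * 8 = 8 * (K + i) + 8 by ring,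
              show (16 : ℕ) = 2 ^ 4 by norm_num, ← pow_add]
            congr 1
            omega
    have e2 : n < 2 * J * (s.p i) ^ 8 := by
      refine lt_of_lt_of_le h2 ?_
      calc M0 * 2 ^ (8 * (K + i) + 12) = M0 * 2 ^ 12 * (2 ^ (K + i)) ^ 8 := by
            rw [← pow_mul, mul_assoc, ← pow_add]
            congr 2
            omega
        _ ≤ 2 * J * (2 ^ (K + i)) ^ 8 := by
            refine Nat.mul_le_mul_right _ ?_
            rw [hJdef]
            omega
        _ ≤ 2 * J * (s.p i) ^ 8 :=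
            Nat.mul_le_mul_left _ (Nat.pow_le_pow_left (s.lo i).le 8)
    obtain ⟨a, ha, b, hb, hab⟩ := hB.cov i hk n e1 e2
    exact ⟨a, ⟨i, ha⟩, b, ⟨i, hb⟩, hab⟩
  · intro x
    refine (s_thin hB x).trans ?_
    refine mul_le_mul_of_nonneg_right ?_ (Real.sqrt_nonneg _)
    exact_mod_cast (by omega : 32 * R ≤ K + M + 32 * R + M * (R + 2 * C3))
  · intro n
    rcases s_upper hB n with h0 | ⟨i, hPi, h1, h2, h3⟩
    · exact Or.inl h0
    · refine Or.inr ⟨K + i, hPi, h1, ?_, by omega, ?_⟩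
      · have h4 : n ≤ (K + M + 32 * R + M * (R + 2 * C3)) * 2 ^ (8 * (K + i)) :=
          h2.trans (Nat.mul_le_mul_right _ (by rw [← hMdef]; omega))
        have h5 := (Nat.cast_le (α := ℝ)).2 h4
        rw [Nat.cast_mul, Nat.cast_pow, Nat.cast_ofNat] at h5
        exact h5
      · set Q : ℝ := ((K + i : ℕ) : ℝ) / (Real.log ((K + i : ℕ) : ℝ) + gap I (K + i)) with hQ
        have hQ0 : 0 ≤ Q := div_nonneg (Nat.cast_nonneg _) (hlogpos i).le
        have hTi : T i = C3 * Q := by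
          rw [hT, hQ]
          simp only [hγ]
          ring
        rw [← hMdef, hTi] at h3
        calc (rA (bigA S) n : ℝ) ≤ M * (R + 2 * (C3 * Q)) := h3
          _ = M * (R + 2 * C3 * Q) := by ring
          _ ≤ M * ((R + 2 * C3) * (1 + Q)) := by
              refine mul_le_mul_of_nonneg_left ?_ (Nat.cast_nonneg _)
              have : (0 : ℝ) ≤ R * Q := by positivity
              have : (0 : ℝ) ≤ 2 * (C3 : ℝ) := by positivity
              nlinarith
          _ = (M * (R + 2 * C3) : ℕ) * (1 + Q) := by push_cast; ring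
          _ ≤ ((K + M + 32 * R + M * (R + 2 * C3) : ℕ) : ℝ) * (1 + Q) := by
              refine mul_le_mul_of_nonneg_right ?_ (by linarith)
              exact_mod_cast (by omega : M * (R + 2 * C3) ≤ K + M + 32 * R + M * (R + 2 * C3))

end Pool.Agent.Helper667_ET
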