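import Pool.Agent.H125R2.ET.Main

/-!
# Hits between a block and a sparse well distributed set of smaller numbers
-/

set_option autoImplicit false

namespace Pool.Agent.Helper667_ET

open Finset Pool.Agent.H125R2.ET

/-- the hits between a block and a given well distributed set, which is thin modulo `p ^ 2` -/
def FinProbGap (C : ℕ) : Prop :=
  ∀ g C2 : ℕ, ∃ C3 k0 : ℕ, ∀ k ≥ k0, ∀ γ ≤ k, ∀ (p : ℕ) (hp : 0 < p) (D : Finset ℕ), 2 ^ k < p →
    p ≤ 2 ^ (k + 1) → IsBase C p D → ∀ Y : Finset ℕ, (∀ y ∈ Y, y < (C + 4) * p ^ 8) →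
    ClsLE (p ^ 6) Y g → ClsLE (p ^ 4) Y (C2 * k ^ 2) → ∀ G : ℕ, ClsLE (p ^ 2) Y G →
    16 ^ γ * G ≤ C2 * (p ^ 2 + 16 ^ γ * k ^ 2) →
    (block p hp D).Pr (fun ω => ¬ ∀ n, ((((block p hp D).S ω) ∩ refl n Y).card : ℝ) ≤
      C3 * k / (Real.log k + γ)) ≤ 1 / 2 ^ (k + 3)

theorem log_gap {k γ : ℕ} (hk : 32 ≤ k) :
    (Real.log k + γ) / 4 ≤ Real.log k + ((γ / 8 : ℕ) : ℝ) * Real.log 16 := by
  have h1 : (3.4 : ℝ) ≤ Real.log k := by
    have e1 : Real.log 32 = 5 * Real.log 2 := by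
      rw [show (32 : ℝ) = 2 ^ (5 : ℕ) by norm_num, Real.log_pow]; norm_num
    have e2 : Real.log 32 ≤ Real.log k := Real.log_le_log (by norm_num) (by exact_mod_cast hk)
    have e3 := Real.log_two_gt_d9
    linarith
  have h2 : Real.log 16 = 4 * Real.log 2 := by
    rw [show (16 : ℝ) = 2 ^ (4 : ℕ) by norm_num, Real.log_pow]; norm_num
  have h3 := Real.log_two_gt_d9
  have h4 : (γ : ℝ) ≤ 8 * ((γ / 8 : ℕ) : ℝ) + 7 := by
    have : γ ≤ 8 * (γ / 8) + 7 := by omega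
    exact_mod_cast this
  have h5 : (0 : ℝ) ≤ ((γ / 8 : ℕ) : ℝ) := Nat.cast_nonneg _
  have h6 : (2.7 : ℝ) ≤ Real.log 16 := by rw [h2]; linarith
  nlinarith [mul_le_mul_of_nonneg_left h6 h5]

theorem fin_prob_gap (C : ℕ) (hM : BlockMom C) (hR : BlockRange C) : FinProbGap C := by
  intro g C2
  obtain ⟨K, hK, hM⟩ := hM
  -- the constants
  have hlim := tendsto_pow_const_div_const_pow_of_one_lt 3 (r := Real.sqrt 2)
    (by
      rw [Real.lt_sqrt (by norm_num)]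
      norm_num)
  have hev : ∀ᶠ k : ℕ in Filter.atTop, (k : ℝ) ^ 3 / (Real.sqrt 2) ^ k < 1 / (K * C2 + 1) := by
    apply (tendsto_order.1 hlim).2
    positivity
  obtain ⟨k1, hk1⟩ := Filter.eventually_atTop.1 hev
  refine ⟨4 * (g + 1) * (⌈2 * K * C2⌉₊ + 20), max k1 (C + 40), ?_⟩
  intro k hk γ hγ p hp D hp1 hp2 hD Y hY h6 h4 G h2 hG
  have hkk1 : k1 ≤ k := le_trans (le_max_left _ _) hk
  have hkC : C + 40 ≤ k := le_trans (le_max_right _ _) hk
  have hk2k : k < 2 ^ k := Nat.lt_two_pow_self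
  have hkR : (40 : ℝ) ≤ k := by exact_mod_cast (by omega : 40 ≤ k)
  have hlogk : 0 < Real.log k := Real.log_pos (by linarith)
  have hden : 0 < Real.log k + (γ : ℝ) := by positivity
  set T : ℝ := ((((4 * (g + 1) * (⌈2 * K * C2⌉₊ + 20) : ℕ) : ℝ))) * k / (Real.log k + γ) with hT
  have hT0 : 0 < T := by
    rw [hT]
    apply div_pos _ hden
    apply mul_pos _ (by linarith)
    exact_mod_cast (by positivity : 0 < 4 * (g + 1) * (⌈2 * K * C2⌉₊ + 20))
  set N : ℕ := 2 * ((C + 4) * 2 ^ (8 * k + 8)) with hN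
  -- the range
  have hrange : ∀ ω : (block p hp D).Ω, ∀ n, N ≤ n →
      (((((block p hp D).S ω) ∩ refl n Y).card : ℕ) : ℝ) < T := by
    intro ω n hn
    have he : ((block p hp D).S ω) ∩ refl n Y = ∅ := by
      rw [Finset.eq_empty_iff_forall_notMem]
      intro s hs
      rw [mem_inter, mem_refl] at hs
      obtain ⟨hs1, hs2, hs3⟩ := hs
      have a1 := ((hR p hp (by omega) (by omega) D hD ω).1 s hs1).2
      have a2 := hY _ hs3
      have a3 : p ^ 8 ≤ 2 ^ (8 * k + 8) := by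
        calc p ^ 8 ≤ (2 ^ (k + 1)) ^ 8 := Nat.pow_le_pow_left hp2 8
          _ = 2 ^ (8 * k + 8) := by rw [← pow_mul]; ring_nf
      have a4 : (C + 4) * p ^ 8 ≤ (C + 4) * 2 ^ (8 * k + 8) := Nat.mul_le_mul_left _ a3
      omega
    rw [he]
    simpa using hT0
  -- powers
  set a : ℕ := γ / 8 with ha
  have hsq : (Real.sqrt 2) ^ k * (Real.sqrt 2) ^ k = 2 ^ k := by
    rw [← mul_pow, Real.mul_self_sqrt (by norm_num)]
  have h16 : (16 : ℝ) ^ a ≤ (Real.sqrt 2) ^ k := by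
    have e1 : (16 : ℝ) = (Real.sqrt 2) ^ 8 := by
      rw [show (8 : ℕ) = 2 * 4 by norm_num, pow_mul, Real.sq_sqrt (by norm_num)]
      norm_num
    rw [e1, ← pow_mul]
    apply pow_le_pow_right₀
    · rw [Real.one_le_sqrt]; norm_num
    · omega
  have b1 := hk1 k hkk1
  have b2 : (0 : ℝ) < (Real.sqrt 2) ^ k := by positivity
  have b3 : (0 : ℝ) < K * C2 + 1 := by positivity
  rw [div_lt_div_iff₀ b2 b3] at b1
  have b4 : (2 : ℝ) ^ k ≤ p := by exact_mod_cast hp1.le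
  have b5 : (0 : ℝ) ≤ (k : ℝ) ^ 3 := by positivity
  have b6 : (k : ℝ) ^ 3 ≤ (Real.sqrt 2) ^ k := by
    have : (k : ℝ) ^ 3 * 1 ≤ (k : ℝ) ^ 3 * (K * C2 + 1) := by
      apply mul_le_mul_of_nonneg_left _ b5
      have : 0 ≤ K * (C2 : ℝ) := by positivity
      linarith
    linarith
  -- one value of n
  have hone : ∀ n, (block p hp D).Pr (fun ω => T ≤ ((((block p hp D).S ω) ∩ refl n Y).card : ℝ)) ≤
      Real.exp (-(20 * k)) := by
    intro n
    set lam : ℝ := (Real.log k + (a : ℝ) * Real.log 16) / ((g + 1 : ℕ) : ℝ) with hlam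
    have hg1 : (0 : ℝ) < ((g + 1 : ℕ) : ℝ) := by exact_mod_cast Nat.succ_pos g
    have hlog16 : 0 < Real.log 16 := Real.log_pos (by norm_num)
    have hlam0 : 0 ≤ lam := by rw [hlam]; positivity
    have hexp : Real.exp (lam * ((g + 1 : ℕ) : ℝ)) = k * 16 ^ a := by
      rw [hlam, div_mul_cancel₀ _ hg1.ne', Real.exp_add, Real.exp_log (by linarith),
        Real.exp_nat_mul, Real.exp_log (by norm_num)]
    have hmom := hM p hp D hD lam hlam0 (g + 1) (C2 * k ^ 2) G (refl n Y)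
      (T15_cls_mono (T15_cls_refl h6 n) (Nat.le_succ g)) (T15_cls_refl h4 n)
      (T15_cls_refl h2 n) (by
        rw [hexp]
        push_cast
        calc K * ((k : ℝ) * 16 ^ a) * ((C2 : ℝ) * (k : ℝ) ^ 2)
            = ((k : ℝ) ^ 3 * (K * C2)) * 16 ^ a := by ring
          _ ≤ ((k : ℝ) ^ 3 * (K * C2 + 1)) * 16 ^ a := by
              apply mul_le_mul_of_nonneg_right _ (by positivity)
              nlinarith
          _ ≤ (1 * (Real.sqrt 2) ^ k) * (Real.sqrt 2) ^ k :=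
              mul_le_mul b1.le h16 (by positivity) (by positivity)
          _ = 2 ^ k := by rw [one_mul, hsq]
          _ ≤ p := b4)
    have hmark := Pr_hits_le (block p hp D) hlam0 (refl n Y) T
    refine le_trans hmark ?_
    have hpR : (0 : ℝ) < p := by exact_mod_cast hp
    have hp0 : (0 : ℝ) < (p : ℝ) ^ 2 := by positivity
    have e1 : K * Real.exp (lam * ((g + 1 : ℕ) : ℝ)) * (G : ℝ) / (p : ℝ) ^ 2 ≤
        2 * K * C2 * k := by
      rw [hexp, div_le_iff₀ hp0]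
      have c0 : (16 : ℝ) ^ γ * G ≤ C2 * ((p : ℝ) ^ 2 + 16 ^ γ * (k : ℝ) ^ 2) := by
        exact_mod_cast hG
      have c1 : (0 : ℝ) < 16 ^ γ := by positivity
      have c2 : (16 : ℝ) ^ a ≤ 16 ^ γ := pow_le_pow_right₀ (by norm_num) (by omega)
      -- 16 ^ a * G ≤ C2 * (p ^ 2 + 16 ^ a * k ^ 2)
      have c3 : (16 : ℝ) ^ a * G ≤ C2 * ((p : ℝ) ^ 2 + 16 ^ a * (k : ℝ) ^ 2) := by
        have d1 : (16 : ℝ) ^ γ * (16 ^ a * G) ≤ 16 ^ γ * (C2 * ((p : ℝ) ^ 2 + 16 ^ a * (k : ℝ) ^ 2)) := by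
          calc (16 : ℝ) ^ γ * (16 ^ a * G) = 16 ^ a * (16 ^ γ * G) := by ring
            _ ≤ 16 ^ a * (C2 * ((p : ℝ) ^ 2 + 16 ^ γ * (k : ℝ) ^ 2)) :=
                mul_le_mul_of_nonneg_left c0 (by positivity)
            _ = C2 * (16 ^ a * (p : ℝ) ^ 2) + C2 * (16 ^ γ * (16 ^ a * (k : ℝ) ^ 2)) := by ring
            _ ≤ C2 * (16 ^ γ * (p : ℝ) ^ 2) + C2 * (16 ^ γ * (16 ^ a * (k : ℝ) ^ 2)) := by
                gcongr
            _ = 16 ^ γ * (C2 * ((p : ℝ) ^ 2 + 16 ^ a * (k : ℝ) ^ 2)) := by ring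
        exact le_of_mul_le_mul_left d1 c1
      -- 16 ^ a * k ^ 2 ≤ p ^ 2
      have c4 : (16 : ℝ) ^ a * (k : ℝ) ^ 2 ≤ (p : ℝ) ^ 2 := by
        have d2 : (k : ℝ) ^ 2 ≤ (k : ℝ) ^ 3 := by
          apply pow_le_pow_right₀ (by linarith) (by norm_num)
        calc (16 : ℝ) ^ a * (k : ℝ) ^ 2 ≤ (Real.sqrt 2) ^ k * (Real.sqrt 2) ^ k :=
              mul_le_mul h16 (d2.trans b6) (by positivity) (by positivity)
          _ = 2 ^ k := hsq
          _ ≤ p := b4
          _ ≤ (p : ℝ) ^ 2 := by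
              have : (1 : ℝ) ≤ p := by exact_mod_cast hp
              nlinarith
      have c5 : (16 : ℝ) ^ a * G ≤ C2 * (2 * (p : ℝ) ^ 2) := by
        refine c3.trans (mul_le_mul_of_nonneg_left ?_ (Nat.cast_nonneg _))
        linarith
      calc K * ((k : ℝ) * 16 ^ a) * (G : ℝ) = K * k * (16 ^ a * G) := by ring
        _ ≤ K * k * (C2 * (2 * (p : ℝ) ^ 2)) :=
            mul_le_mul_of_nonneg_left c5 (by positivity)
        _ = 2 * K * C2 * k * (p : ℝ) ^ 2 := by ring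
    have e2 : ((⌈2 * K * C2⌉₊ + 20 : ℕ) : ℝ) * k ≤ lam * T := by
      have f1 := log_gap (γ := γ) (show 32 ≤ k by omega)
      rw [← ha] at f1
      have f2 : (0 : ℝ) ≤ ((⌈2 * K * C2⌉₊ + 20 : ℕ) : ℝ) * k := by positivity
      have f3 : lam * T = (Real.log k + (a : ℝ) * Real.log 16) / (Real.log k + γ) *
          (4 * (((⌈2 * K * C2⌉₊ + 20 : ℕ) : ℝ) * k)) := by
        rw [hlam, hT]
        push_cast
        have : ((g : ℝ) + 1) ≠ 0 := by positivity
        field_simp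
      have f4 : (1 / 4 : ℝ) ≤ (Real.log k + (a : ℝ) * Real.log 16) / (Real.log k + γ) := by
        rw [le_div_iff₀ hden]
        linarith
      rw [f3]
      calc ((⌈2 * K * C2⌉₊ + 20 : ℕ) : ℝ) * k
          = (1 / 4 : ℝ) * (4 * (((⌈2 * K * C2⌉₊ + 20 : ℕ) : ℝ) * k)) := by ring
        _ ≤ _ := mul_le_mul_of_nonneg_right f4 (by positivity)
    calc Real.exp (-(lam * T)) * (block p hp D).mom lam (refl n Y)
        ≤ Real.exp (-(((⌈2 * K * C2⌉₊ + 20 : ℕ) : ℝ) * k)) * Real.exp (2 * K * C2 * k) := by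
          refine mul_le_mul ?_ (hmom.trans ?_) (mom_nonneg _ _ _) (Real.exp_pos _).le
          · rw [Real.exp_le_exp]; linarith
          · rw [Real.exp_le_exp]; exact e1
      _ = Real.exp (-(((⌈2 * K * C2⌉₊ + 20 : ℕ) : ℝ) * k) + 2 * K * C2 * k) :=
          (Real.exp_add _ _).symm
      _ ≤ Real.exp (-(20 * k)) := by
          rw [Real.exp_le_exp]
          have c1 : 2 * K * C2 ≤ (⌈2 * K * C2⌉₊ : ℝ) := Nat.le_ceil _
          push_cast
          nlinarith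
  -- union bound
  calc (block p hp D).Pr (fun ω => ¬ ∀ n, ((((block p hp D).S ω) ∩ refl n Y).card : ℝ) ≤ T)
      ≤ (block p hp D).Pr (fun ω => ∃ n ∈ range N,
          T ≤ ((((block p hp D).S ω) ∩ refl n Y).card : ℝ)) := by
        apply Pr_mono
        intro ω hω
        push Not at hω
        obtain ⟨n, hn⟩ := hω
        refine ⟨n, ?_, hn.le⟩
        rw [mem_range]
        by_contra hc
        have := hrange ω n (by omega)
        linarith
    _ ≤ ∑ n ∈ range N, (block p hp D).Pr (fun ω =>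
          T ≤ ((((block p hp D).S ω) ∩ refl n Y).card : ℝ)) := Pr_exists_le _ _ _
    _ ≤ ∑ n ∈ range N, Real.exp (-(20 * k)) := Finset.sum_le_sum (fun n _ => hone n)
    _ = N * Real.exp (-(20 * k)) := by rw [Finset.sum_const, card_range, nsmul_eq_mul]
    _ ≤ 1 / 2 ^ (k + 3) := by
        have d1 : (2 : ℝ) ^ (20 * k) ≤ Real.exp (20 * k) := by
          have : (2 : ℝ) ≤ Real.exp 1 := by
            have := Real.add_one_le_exp (1 : ℝ)
            linarith
          calc (2 : ℝ) ^ (20 * k) ≤ (Real.exp 1) ^ (20 * k) := pow_le_pow_left₀ (by norm_num) this _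
            _ = Real.exp (20 * k) := by
              rw [← Real.exp_nat_mul]
              push_cast
              rw [mul_one]
        have d2 : N * 2 ^ (k + 3) ≤ 2 ^ (20 * k) := by
          rw [hN]
          have f1 : C + 4 ≤ 2 ^ (C + 4) := Nat.lt_two_pow_self.le
          calc 2 * ((C + 4) * 2 ^ (8 * k + 8)) * 2 ^ (k + 3)
              ≤ 2 * (2 ^ (C + 4) * 2 ^ (8 * k + 8)) * 2 ^ (k + 3) := by gcongr
            _ = 2 ^ (1 + (C + 4) + (8 * k + 8) + (k + 3)) := by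
                ring
            _ ≤ 2 ^ (20 * k) := Nat.pow_le_pow_right (by norm_num) (by omega)
        have d3 : (N : ℝ) * 2 ^ (k + 3) ≤ 2 ^ (20 * k) := by exact_mod_cast d2
        rw [Real.exp_neg, ← div_eq_mul_inv, div_le_div_iff₀ (Real.exp_pos _) (by positivity)]
        linarith

end Pool.Agent.Helper667_ET
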