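import Pool.Agent.Helper667_ET.Fin

/-!
# The union of a sparse family of regular lower blocks
-/

set_option autoImplicit false

namespace Pool.Agent.Helper667_ET

open Finset Pool.Agent.H125R2.ET

open scoped Classical in
/-- keep a block only if its index satisfies `P` -/
noncomputable def keep (P : ℕ → Prop) (S : ℕ → Finset ℕ) (j : ℕ) : Finset ℕ :=
  if P j then S j else ∅

theorem keep_sub (P : ℕ → Prop) (S : ℕ → Finset ℕ) (j : ℕ) : keep P S j ⊆ S j := by
  classical
  unfold keep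
  split_ifs
  · exact Finset.Subset.refl _
  · exact Finset.empty_subset _

theorem keep_pos {P : ℕ → Prop} (S : ℕ → Finset ℕ) {j : ℕ} (h : P j) : keep P S j = S j := by
  unfold keep
  exact if_pos h

theorem keep_neg {P : ℕ → Prop} (S : ℕ → Finset ℕ) {j : ℕ} (h : ¬ P j) : keep P S j = ∅ := by
  unfold keep
  exact if_neg h

theorem sum_16' (K m : ℕ) : ∑ j ∈ range (m + 1), 16 ^ (K + j + 1) ≤ 32 * 16 ^ (K + m) := by
  have h := T13.sum_16 K (m + 1)
  have h2 : (16 : ℕ) ^ (K + (m + 1)) = 16 * 16 ^ (K + m) := by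
    rw [← add_assoc, pow_succ]; ring
  omega

theorem low_class_gap (C C1 : ℕ) : ∃ C2 : ℕ, ∀ (K i γ : ℕ) (p : ℕ → ℕ) (S : ℕ → Finset ℕ)
    (P : ℕ → Prop), 0 < K →
    (∀ j, (p j).Prime) → (∀ j, 2 ^ (K + j) < p j) → (∀ j, p j ≤ 2 ^ (K + j + 1)) →
    (∀ j < i, ∀ s ∈ S j, s < (C + 4) * (p j) ^ 8) → (∀ j < i, Reg C1 (p j) (K + j) (S j)) →
    (∀ j < i, P j → j + γ ≤ i) →
    ∃ G : ℕ, ClsLE ((p i) ^ 2) ((range i).biUnion (keep P S)) G ∧
      16 ^ γ * G ≤ C2 * ((p i) ^ 2 + 16 ^ γ * (K + i) ^ 2) := by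
  classical
  refine ⟨C1 * (32 * (C + 4) + 1), ?_⟩
  intro K i γ p S P hK hprime hlo hhi hlt hreg hgap
  set q := p i with hq
  have hq2 : 2 ^ (K + i) < q := hlo i
  have hq0 : 0 < q := (hprime i).pos
  have hlq : ∀ j < i, p j < q := by
    intro j hj
    calc p j ≤ 2 ^ (K + j + 1) := hhi j
      _ ≤ 2 ^ (K + i) := Nat.pow_le_pow_right (by norm_num) (by omega)
      _ < q := hq2
  have hnd : ∀ j < i, ¬ p j ∣ q ^ 2 := by
    intro j hj hdvd
    have h1 := (hprime j).dvd_of_dvd_pow hdvd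
    have h2 := (Nat.prime_dvd_prime_iff_eq (hprime j) (hprime i)).1 h1
    have := hlq j hj
    omega
  refine ⟨∑ j ∈ (range i).filter P, C1 * ((C + 4) * (p j) ^ 4 / q ^ 2 + (K + j)), ?_, ?_⟩
  · intro c
    have hsub : ((range i).biUnion (keep P S)).filter (fun s => s % q ^ 2 = c) ⊆
        ((range i).filter P).biUnion (fun j => (S j).filter (fun s => s % q ^ 2 = c)) := by
      intro s hs
      rw [mem_filter, mem_biUnion] at hs
      obtain ⟨⟨j, hj, hs1⟩, hs2⟩ := hs
      rw [mem_biUnion]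
      by_cases hP : P j
      · rw [keep_pos S hP] at hs1
        exact ⟨j, mem_filter.2 ⟨hj, hP⟩, mem_filter.2 ⟨hs1, hs2⟩⟩
      · rw [keep_neg S hP] at hs1
        exact absurd hs1 (Finset.notMem_empty _)
    refine (card_le_card hsub).trans (Finset.card_biUnion_le.trans (Finset.sum_le_sum fun j hj => ?_))
    have hj' : j < i := Finset.mem_range.1 (mem_filter.1 hj).1
    exact reg_class (hreg j hj') (hlt j hj') (hprime j).pos (by omega) (pow_pos hq0 2)
      (hnd j hj') c
  · by_cases hγ : i < γ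
    · have he : (range i).filter P = ∅ := by
        rw [Finset.filter_eq_empty_iff]
        intro j hj hP
        have := hgap j (Finset.mem_range.1 hj) hP
        omega
      rw [he]
      simp
    · have hγ' : γ ≤ i := not_lt.1 hγ
      obtain ⟨m, hm⟩ : ∃ m, i = m + γ := ⟨i - γ, by omega⟩
      have hsub : (range i).filter P ⊆ range (m + 1) := by
        intro j hj
        rw [mem_filter, mem_range] at hj
        have := hgap j hj.1 hj.2
        rw [mem_range]
        omega
      have hq2pos : 0 < q ^ 2 := pow_pos hq0 2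
      have h1 : 16 ^ γ * ∑ j ∈ (range i).filter P, (C + 4) * (p j) ^ 4 / q ^ 2 ≤
          32 * (C + 4) * q ^ 2 := by
        refine Nat.le_of_mul_le_mul_right ?_ hq2pos
        rw [mul_assoc, Finset.sum_mul]
        calc 16 ^ γ * ∑ j ∈ (range i).filter P, (C + 4) * (p j) ^ 4 / q ^ 2 * q ^ 2
            ≤ 16 ^ γ * ∑ j ∈ (range i).filter P, (C + 4) * 16 ^ (K + j + 1) := by
              refine Nat.mul_le_mul_left _ (Finset.sum_le_sum fun j hj =>
                (Nat.div_mul_le_self _ _).trans ?_)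
              refine Nat.mul_le_mul_left _ ?_
              calc (p j) ^ 4 ≤ (2 ^ (K + j + 1)) ^ 4 := Nat.pow_le_pow_left (hhi j) 4
                _ = 16 ^ (K + j + 1) := by
                  rw [← pow_mul, mul_comm (K + j + 1) 4, pow_mul]; norm_num
          _ ≤ 16 ^ γ * ∑ j ∈ range (m + 1), (C + 4) * 16 ^ (K + j + 1) :=
              Nat.mul_le_mul_left _ (Finset.sum_le_sum_of_subset hsub)
          _ = 16 ^ γ * ((C + 4) * ∑ j ∈ range (m + 1), 16 ^ (K + j + 1)) := by
              rw [← Finset.mul_sum]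
          _ ≤ 16 ^ γ * ((C + 4) * (32 * 16 ^ (K + m))) :=
              Nat.mul_le_mul_left _ (Nat.mul_le_mul_left _ (sum_16' K m))
          _ = 32 * (C + 4) * 16 ^ (K + i) := by
              have h16 : (16 : ℕ) ^ (K + i) = 16 ^ (K + m) * 16 ^ γ := by
                rw [← pow_add]
                congr 1
                omega
              rw [h16]; ring
          _ ≤ 32 * (C + 4) * q ^ 4 := by
              refine Nat.mul_le_mul_left _ ?_
              calc 16 ^ (K + i) = (2 ^ (K + i)) ^ 4 := by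
                    rw [← pow_mul, mul_comm (K + i) 4, pow_mul]; norm_num
                _ ≤ q ^ 4 := Nat.pow_le_pow_left hq2.le 4
          _ = 32 * (C + 4) * q ^ 2 * q ^ 2 := by ring
      have h2 : ∑ j ∈ (range i).filter P, (K + j) ≤ (K + i) ^ 2 := by
        calc ∑ j ∈ (range i).filter P, (K + j) ≤ ∑ j ∈ range i, (K + j) :=
              Finset.sum_le_sum_of_subset (Finset.filter_subset _ _)
          _ ≤ (range i).card • (K + i) := Finset.sum_le_card_nsmul _ _ _ (fun j hj => by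
              have hj' : j < i := Finset.mem_range.1 hj
              omega)
          _ = i * (K + i) := by rw [card_range, smul_eq_mul]
          _ ≤ (K + i) * (K + i) := Nat.mul_le_mul (by omega) le_rfl
          _ = (K + i) ^ 2 := by ring
      rw [← Finset.mul_sum, Finset.sum_add_distrib]
      calc 16 ^ γ * (C1 * (∑ j ∈ (range i).filter P, (C + 4) * (p j) ^ 4 / q ^ 2 +
            ∑ j ∈ (range i).filter P, (K + j)))
          = C1 * (16 ^ γ * ∑ j ∈ (range i).filter P, (C + 4) * (p j) ^ 4 / q ^ 2 +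
            16 ^ γ * ∑ j ∈ (range i).filter P, (K + j)) := by ring
        _ ≤ C1 * (32 * (C + 4) * q ^ 2 + 16 ^ γ * (K + i) ^ 2) := by gcongr
        _ ≤ C1 * ((32 * (C + 4) + 1) * (q ^ 2 + 16 ^ γ * (K + i) ^ 2)) := by
            refine Nat.mul_le_mul_left _ ?_
            nlinarith [Nat.zero_le (32 * (C + 4) * (16 ^ γ * (K + i) ^ 2)), Nat.zero_le (q ^ 2)]
        _ = C1 * (32 * (C + 4) + 1) * (q ^ 2 + 16 ^ γ * (K + i) ^ 2) := by ring

/-- the sub-union of the blocks with index in `P`, as a function of the random point -/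
noncomputable def sub (X : ℕ → RFS) (P : ℕ → Prop) : ∀ i, (pre X i).Ω → Finset ℕ
  | 0 => fun _ => ∅
  | (i + 1) => fun (x : (pre X i).Ω × (X i).Ω) =>
      sub X P i x.1 ∪ keep P (fun j => if h : j = i then (X j).S (h ▸ x.2) else ∅) i

theorem sub_pt (X : ℕ → RFS) (P : ℕ → Prop) (ω : ∀ i, (X i).Ω) (i : ℕ) :
    sub X P i (pt X ω i) = (range i).biUnion (keep P (fun j => (X j).S (ω j))) := by
  induction i with
  | zero => rfl
  | succ i ih =>
    show sub X P i (pt X ω i) ∪ keep P (fun j => if h : j = i then (X j).S (h ▸ ω i) else ∅) i = _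
    rw [ih, Finset.range_add_one, Finset.biUnion_insert, Finset.union_comm]
    congr 1
    by_cases hP : P i
    · rw [keep_pos _ hP, keep_pos _ hP]
      simp
    · rw [keep_neg _ hP, keep_neg _ hP]

theorem biUnion_keep_sub (P : ℕ → Prop) (S : ℕ → Finset ℕ) (i : ℕ) :
    (range i).biUnion (keep P S) ⊆ (range i).biUnion S := by
  intro s hs
  rw [mem_biUnion] at hs ⊢
  obtain ⟨j, hj, hs⟩ := hs
  exact ⟨j, hj, keep_sub P S j hs⟩

theorem cls_sub {m g : ℕ} {V W : Finset ℕ} (h : V ⊆ W) (hW : ClsLE m W g) : ClsLE m V g :=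
  fun c => (card_le_card (filter_subset_filter _ h)).trans (hW c)

/-- the good sequence for a family of scales -/
theorem good_seq_gap (C : ℕ) (h0 : BlockRange C) (h1 : RegProb C)
    (h2 : SprProb C) (h3 : FinProbGap C) (h4 : LowClass C) :
    ∃ C3 K0 : ℕ, ∀ K ≥ K0, ∀ (s : Sys C K) (P : ℕ → Prop) (γ : ℕ → ℕ),
      (∀ i, ∀ j < i, P j → j + γ i ≤ i) → (∀ i, γ i ≤ K + i) →
      ∃ ω : ∀ i, (s.X i).Ω, ∀ i n,
        ((((s.X i).S (ω i)) ∩
          refl n ((range i).biUnion (keep P (fun j => (s.X j).S (ω j))))).card : ℝ) ≤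
        C3 * ((K + i : ℕ) : ℝ) / (Real.log ((K + i : ℕ) : ℝ) + γ i) := by
  obtain ⟨C1, k1, hReg⟩ := h1
  obtain ⟨g, K1, hSpr⟩ := h2
  obtain ⟨C2, hLow⟩ := h4 C1
  obtain ⟨C2', hLow'⟩ := low_class_gap C C1
  obtain ⟨C3, k3, hFin⟩ := h3 g (C2 + C2')
  refine ⟨C3, k1 + K1 + k3 + C + 8, ?_⟩
  intro K hK s P γ hgap hγK
  have hlow8 : ∀ i, K + i < s.p i := fun i =>
    lt_trans Nat.lt_two_pow_self (s.lo i)
  -- the events
  set F : ∀ i, (pre s.X i).Ω → (s.X i).Ω → Prop := fun i x w =>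
    Reg C1 (s.p i) (K + i) ((s.X i).S w) ∧
      ∀ n, ((((s.X i).S w) ∩ refl n (sub s.X P i x)).card : ℝ) ≤
        C3 * ((K + i : ℕ) : ℝ) / (Real.log ((K + i : ℕ) : ℝ) + γ i) with hFdef
  set Sp : ∀ i, (pre s.X i).Ω → Prop := fun i x =>
    ClsLE ((s.p i) ^ 6) ((pre s.X i).S x) g with hSpdef
  obtain ⟨ω, hω⟩ := exists_good s.X (T18.GG s.X F Sp) F Sp (fun x hx => hx) (fun i x w => Iff.rfl)
    (by
      intro i x hx
      obtain ⟨ω, rfl⟩ := T18.pt_surj s.X i x
      obtain ⟨hF, hS⟩ := T18.GG_pt s.X F Sp ω i hx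
      have hSpt := T18.S_pt s.X ω i
      have hsubpt := sub_pt s.X P ω i
      have hsubset : sub s.X P i (pt s.X ω i) ⊆ (pre s.X i).S (pt s.X ω i) := by
        rw [hSpt, hsubpt]
        exact biUnion_keep_sub P _ i
      have hlt : ∀ j < i, ∀ y ∈ (s.X j).S (ω j), y < (C + 4) * (s.p j) ^ 8 := by
        intro j hj y hy
        exact ((h0 (s.p j) (s.prime j).pos (by have := hlow8 j; omega)
          (by have := hlow8 j; omega) (s.D j) (s.base j) (ω j)).1 y hy).2
      have hlc := hLow K i s.p (fun j => (s.X j).S (ω j)) (by omega) s.prime s.lo s.hi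
        hlt (fun j hj => (hF j hj).1)
      rw [← hSpt] at hlc
      obtain ⟨G, hG1, hG2⟩ := hLow' K i (γ i) s.p (fun j => (s.X j).S (ω j)) P (by omega)
        s.prime s.lo s.hi hlt (fun j hj => (hF j hj).1) (hgap i)
      rw [← hsubpt] at hG1
      have hY : ∀ y ∈ sub s.X P i (pt s.X ω i), y < (C + 4) * (s.p i) ^ 8 := by
        intro y hy
        have hy := hsubset hy
        rw [hSpt, Finset.mem_biUnion] at hy
        obtain ⟨j, hj, hy⟩ := hy
        have hji : j < i := Finset.mem_range.1 hj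
        have h5 := hlt j hji y hy
        have h6 : s.p j ≤ s.p i := by
          have h7 : 2 ^ (K + j + 1) ≤ 2 ^ (K + i) := Nat.pow_le_pow_right (by norm_num) (by omega)
          exact (s.hi j).trans (h7.trans (s.lo i).le)
        exact lt_of_lt_of_le h5 (Nat.mul_le_mul le_rfl (Nat.pow_le_pow_left h6 8))
      have hfin := hFin (K + i) (by omega) (γ i) (hγK i) (s.p i) (s.prime i).pos (s.D i) (s.lo i)
        (s.hi i) (s.base i) (sub s.X P i (pt s.X ω i)) hY (cls_sub hsubset hS)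
        (T15_cls_mono (cls_sub hsubset hlc.1) (Nat.mul_le_mul_right _ (Nat.le_add_right _ _)))
        G hG1 (hG2.trans (Nat.mul_le_mul_right _ (Nat.le_add_left _ _)))
      have hreg := hReg (K + i) (by omega) (s.p i) (s.prime i).pos (s.D i) (s.prime i) (s.lo i)
        (s.hi i) (s.base i)
      have hle : (s.X i).Pr (fun w => ¬ F i (pt s.X ω i) w) ≤
          (s.X i).Pr (fun w => ¬ Reg C1 (s.p i) (K + i) ((s.X i).S w) ∨
            ¬ ∀ n, ((((s.X i).S w) ∩ refl n (sub s.X P i (pt s.X ω i))).card : ℝ) ≤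
              C3 * ((K + i : ℕ) : ℝ) / (Real.log ((K + i : ℕ) : ℝ) + γ i)) :=
        Pr_mono _ (fun w hw => not_and_or.1 hw)
      refine hle.trans ((Pr_or_le _ _ _).trans ((add_le_add hreg hfin).trans ?_))
      have h8 : (2 : ℝ) ^ 3 ≤ 2 ^ (K + i + 3) := pow_le_pow_right₀ (by norm_num) (by omega)
      have h9 : (1 : ℝ) / 2 ^ (K + i + 3) ≤ 1 / 2 ^ 3 :=
        one_div_le_one_div_of_le (by norm_num) h8
      norm_num at h9 ⊢
      linarith)
    (by
      intro i
      refine (hSpr K (by omega) s i).trans ?_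
      refine one_div_le_one_div_of_le (by positivity) ?_
      have h5 : (2 : ℝ) * 4 ^ i = 2 ^ (2 * i + 1) := by
        rw [pow_succ, pow_mul]
        norm_num
        ring
      rw [h5]
      exact pow_le_pow_right₀ (by norm_num) (by omega))
  refine ⟨ω, fun i n => ?_⟩
  have h5 := ((T18.GG_pt s.X F Sp ω (i + 1) (hω (i + 1))).1 i (Nat.lt_succ_self i)).2 n
  rw [sub_pt] at h5
  exact h5

end Pool.Agent.Helper667_ET
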