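import Pool.Agent.Helper667_ET.Asm

/-!
# Bounded representation function, and sumset containing `[x, 256 x)` at many scales
-/

set_option autoImplicit false

namespace Pool.Agent.Helper667_ET

open Finset Pool.Agent.H125R2.ET

/-- the scales: each one is `1 + ε / 2` times the previous one, rounded -/
noncomputable def kap (ε : ℝ) (k0 : ℕ) : ℕ → ℕ
  | 0 => k0
  | (j + 1) => kap ε k0 j + ⌊ε * (kap ε k0 j : ℝ) / 2⌋₊

theorem kap_ge (ε : ℝ) (k0 j : ℕ) : k0 ≤ kap ε k0 j := by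
  induction j with
  | zero => exact le_rfl
  | succ j ih => exact ih.trans (Nat.le_add_right _ _)

theorem kap_floor {ε : ℝ} (hε : 0 < ε) {k0 : ℕ} (hk : 2 ≤ ε * k0) (j : ℕ) :
    ε * (kap ε k0 j : ℝ) / 4 ≤ (⌊ε * (kap ε k0 j : ℝ) / 2⌋₊ : ℝ) ∧
      1 ≤ ⌊ε * (kap ε k0 j : ℝ) / 2⌋₊ := by
  have h1 : (k0 : ℝ) ≤ kap ε k0 j := by exact_mod_cast kap_ge ε k0 j
  have h2 : 1 ≤ ε * (kap ε k0 j : ℝ) / 2 := by
    have := mul_le_mul_of_nonneg_left h1 hε.le
    linarith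
  have h3 : 1 ≤ ⌊ε * (kap ε k0 j : ℝ) / 2⌋₊ := by
    rw [Nat.one_le_floor_iff]; exact h2
  have h4 := Nat.lt_floor_add_one (ε * (kap ε k0 j : ℝ) / 2)
  have h5 : (1 : ℝ) ≤ (⌊ε * (kap ε k0 j : ℝ) / 2⌋₊ : ℝ) := by exact_mod_cast h3
  exact ⟨by linarith, h3⟩

theorem kap_strictMono {ε : ℝ} (hε : 0 < ε) {k0 : ℕ} (hk : 2 ≤ ε * k0) :
    StrictMono (kap ε k0) := by
  refine strictMono_nat_of_lt_succ (fun j => ?_)
  have := (kap_floor hε hk j).2
  show kap ε k0 j < kap ε k0 j + ⌊ε * (kap ε k0 j : ℝ) / 2⌋₊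
  omega

theorem kap_succ_le {ε : ℝ} (hε : 0 < ε) (k0 j : ℕ) :
    (kap ε k0 (j + 1) : ℝ) ≤ (1 + ε / 2) * kap ε k0 j := by
  have h1 : (⌊ε * (kap ε k0 j : ℝ) / 2⌋₊ : ℝ) ≤ ε * (kap ε k0 j : ℝ) / 2 :=
    Nat.floor_le (by positivity)
  have h2 : (kap ε k0 (j + 1) : ℝ) = kap ε k0 j + (⌊ε * (kap ε k0 j : ℝ) / 2⌋₊ : ℝ) := by
    show ((kap ε k0 j + ⌊ε * (kap ε k0 j : ℝ) / 2⌋₊ : ℕ) : ℝ) = _
    rw [Nat.cast_add]
  rw [h2]
  linarith

/-- the gaps are at least `ε k / 8` -/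
theorem gap_kap {ε : ℝ} (hε : 0 < ε) (hε1 : ε ≤ 1) {k0 : ℕ} (hk : 2 ≤ ε * k0) (j : ℕ) :
    ε * (kap ε k0 j : ℝ) / 8 ≤ gap (Set.range (kap ε k0)) (kap ε k0 j) := by
  have hmono := kap_strictMono hε hk
  cases j with
  | zero =>
    have he : {i : ℕ | i ∈ Set.range (kap ε k0) ∧ i < kap ε k0 0} = ∅ := by
      rw [Set.eq_empty_iff_forall_notMem]
      rintro i ⟨⟨m, rfl⟩, hm⟩
      exact absurd (hmono.lt_iff_lt.1 hm) (Nat.not_lt_zero m)
    unfold gap
    rw [he, csSup_empty, Nat.bot_eq_zero, Nat.sub_zero]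
    have h0 : (0 : ℝ) ≤ kap ε k0 0 := Nat.cast_nonneg _
    have := mul_le_mul_of_nonneg_right hε1 h0
    linarith
  | succ j =>
    have hle : sSup {i : ℕ | i ∈ Set.range (kap ε k0) ∧ i < kap ε k0 (j + 1)} ≤ kap ε k0 j := by
      refine csSup_le ⟨kap ε k0 j, ⟨j, rfl⟩, hmono (Nat.lt_succ_self j)⟩ ?_
      rintro i ⟨⟨m, rfl⟩, hm⟩
      exact hmono.monotone (Nat.lt_succ_iff.1 (hmono.lt_iff_lt.1 hm))
    have h1 : ⌊ε * (kap ε k0 j : ℝ) / 2⌋₊ ≤ gap (Set.range (kap ε k0)) (kap ε k0 (j + 1)) := by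
      unfold gap
      have h2 : kap ε k0 (j + 1) = kap ε k0 j + ⌊ε * (kap ε k0 j : ℝ) / 2⌋₊ := rfl
      omega
    have h3 := (kap_floor hε hk j).1
    have h4 := kap_succ_le hε k0 j
    have h5 : ((⌊ε * (kap ε k0 j : ℝ) / 2⌋₊ : ℕ) : ℝ) ≤
        gap (Set.range (kap ε k0)) (kap ε k0 (j + 1)) := by exact_mod_cast h1
    have h6 : (0 : ℝ) ≤ kap ε k0 j := Nat.cast_nonneg _
    have h7 : (kap ε k0 (j + 1) : ℝ) ≤ 2 * kap ε k0 j := by
      have h8 := mul_le_mul_of_nonneg_right (show 1 + ε / 2 ≤ 2 by linarith) h6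
      linarith
    have h9 := mul_le_mul_of_nonneg_left h7 hε.le
    have h10 : ε * (2 * (kap ε k0 j : ℝ)) = 2 * (ε * kap ε k0 j) := by ring
    rw [h10] at h9
    linarith

/-- a set whose sumset contains `[x, M x)` has at least `√x` elements up to `M x` -/
theorem count_of_cover {A : Set ℕ} {M x : ℕ} (hM : 2 ≤ M)
    (h : ∀ n : ℕ, x ≤ n → n < M * x → ∃ a ∈ A, ∃ b ∈ A, a + b = n) {N : ℕ} (hN : M * x ≤ N) :
    Real.sqrt x ≤ ({a : ℕ | a ∈ A ∧ a ≤ N}.ncard : ℝ) := by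
  classical
  set W : Finset ℕ := (range (N + 1)).filter (fun a => a ∈ A) with hW
  have e1 : {a : ℕ | a ∈ A ∧ a ≤ N} = (W : Set ℕ) := by
    ext a
    simp only [Set.mem_ofPred_eq, hW, coe_filter, mem_range]
    constructor
    · exact fun h => ⟨by omega, h.1⟩
    · exact fun h => ⟨h.2, by omega⟩
  rw [e1, Set.ncard_coe_finset]
  have h1 : Finset.Ico x (M * x) ⊆ (W ×ˢ W).image (fun q => q.1 + q.2) := by
    intro n hn
    rw [Finset.mem_Ico] at hn
    obtain ⟨a, ha, b, hb, hab⟩ := h n hn.1 hn.2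
    rw [mem_image]
    refine ⟨(a, b), ?_, hab⟩
    rw [mem_product, hW, mem_filter, mem_filter, mem_range, mem_range]
    exact ⟨⟨by simp only; omega, ha⟩, ⟨by simp only; omega, hb⟩⟩
  have h2 : M * x - x ≤ W.card * W.card := by
    calc M * x - x = (Finset.Ico x (M * x)).card := by rw [Nat.card_Ico]
      _ ≤ ((W ×ˢ W).image (fun q => q.1 + q.2)).card := card_le_card h1
      _ ≤ (W ×ˢ W).card := card_image_le
      _ = W.card * W.card := card_product _ _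
  have h3 : x ≤ W.card * W.card := by
    have : 2 * x ≤ M * x := Nat.mul_le_mul_right _ hM
    omega
  rw [Real.sqrt_le_left (Nat.cast_nonneg _)]
  have h4 : (x : ℝ) ≤ (W.card : ℝ) * W.card := by exact_mod_cast h3
  rw [sq]
  exact h4

/-- **Bounded representation function, with intervals at many scales.** -/
theorem sparse (M : ℕ) (hM : 2 ≤ M) : ∃ C : ℝ, 0 < C ∧ ∀ ε : ℝ, 0 < ε → ε ≤ 1 →
    ∃ (A : Set ℕ) (x : ℕ → ℕ),
    StrictMono x ∧ (∀ n, (rA A n : ℝ) ≤ C / ε) ∧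
    (∀ j, (x (j + 1) : ℝ) ≤ (x j : ℝ) ^ (1 + ε)) ∧
    (∀ j n, x j ≤ n → n < M * x j → ∃ a ∈ A, ∃ b ∈ A, a + b = n) ∧
    (∀ N : ℕ, ({a : ℕ | a ∈ A ∧ a ≤ N}.ncard : ℝ) ≤ C * Real.sqrt N) ∧
    (∀ N : ℕ, M * x 0 ≤ N → (N : ℝ) ^ (1 / 2 - ε) ≤ ({a : ℕ | a ∈ A ∧ a ≤ N}.ncard : ℝ)) := by
  obtain ⟨C, hC, hmain⟩ := scales M
  refine ⟨9 * C, by positivity, fun ε hε hε1 => ?_⟩
  obtain ⟨k0, hk0⟩ := exists_nat_ge (max C ((M : ℝ) / ε))
  have hk0C : C ≤ k0 := (le_max_left _ _).trans hk0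
  have hMR : (2 : ℝ) ≤ M := by exact_mod_cast hM
  have hk0M : (M : ℝ) ≤ ε * k0 := by
    have := (le_max_right _ _).trans hk0
    rw [div_le_iff₀ hε] at this
    linarith
  have hk0ε : 2 ≤ ε * k0 := hMR.trans hk0M
  obtain ⟨A, hcov, hthin, hrep⟩ := hmain (Set.range (kap ε k0))
  have hmono := kap_strictMono hε hk0ε
  have hcov' : ∀ j n, 2 ^ (8 * kap ε k0 j + 12) ≤ n → n < M * 2 ^ (8 * kap ε k0 j + 12) →
      ∃ a ∈ A, ∃ b ∈ A, a + b = n := by
    intro j n h1 h2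
    refine hcov (kap ε k0 j) ⟨j, rfl⟩ ?_ n h1 h2
    exact hk0C.trans (by exact_mod_cast kap_ge ε k0 j)
  have hxs : ∀ j, (((2 ^ (8 * kap ε k0 (j + 1) + 12) : ℕ)) : ℝ) ≤
      ((2 ^ (8 * kap ε k0 j + 12) : ℕ) : ℝ) ^ (1 + ε) := by
    intro j
    rw [Nat.cast_pow, Nat.cast_pow, Nat.cast_ofNat, ← Real.rpow_natCast, ← Real.rpow_natCast,
      ← Real.rpow_mul (by norm_num)]
    refine Real.rpow_le_rpow_of_exponent_le (by norm_num) ?_
    have h5 := kap_succ_le hε k0 j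
    have h0 : (0 : ℝ) ≤ kap ε k0 j := Nat.cast_nonneg _
    have h1 : (0 : ℝ) ≤ ε * kap ε k0 j := mul_nonneg hε.le h0
    have h2 : (8 * (kap ε k0 j : ℝ) + 12) * (1 + ε) =
        8 * kap ε k0 j + 12 + 8 * (ε * kap ε k0 j) + 12 * ε := by ring
    have h3 : (1 + ε / 2) * (kap ε k0 j : ℝ) = kap ε k0 j + (ε * kap ε k0 j) / 2 := by ring
    push_cast
    rw [h2]
    rw [h3] at h5
    linarith
  refine ⟨A, fun j => 2 ^ (8 * kap ε k0 j + 12), ?_, ?_, hxs, hcov', ?_, ?_⟩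
  · intro i j hij
    have := hmono hij
    exact Nat.pow_lt_pow_right (by norm_num) (by omega)
  · intro n
    rcases hrep n with h0 | ⟨k, ⟨j, rfl⟩, -, -, hk3, h⟩
    · rw [h0, Nat.cast_zero]
      positivity
    · refine h.trans ?_
      have hg := gap_kap hε hε1 hk0ε j
      have hkpos : (0 : ℝ) < kap ε k0 j := by
        have : 0 < kap ε k0 j := by omega
        exact_mod_cast this
      have hlog : 0 < Real.log (kap ε k0 j : ℝ) :=
        Real.log_pos (by exact_mod_cast (show 1 < kap ε k0 j by omega))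
      have h1 : (kap ε k0 j : ℝ) / (Real.log (kap ε k0 j : ℝ) +
          gap (Set.range (kap ε k0)) (kap ε k0 j)) ≤ 8 / ε := by
        rw [div_le_div_iff₀ (by positivity) hε, mul_comm (kap ε k0 j : ℝ) ε]
        linarith
      have h2 : (1 : ℝ) ≤ 1 / ε := by rw [le_div_iff₀ hε]; linarith
      calc C * (1 + (kap ε k0 j : ℝ) / (Real.log (kap ε k0 j : ℝ) +
            gap (Set.range (kap ε k0)) (kap ε k0 j)))
          ≤ C * (1 / ε + 8 / ε) := by
            refine mul_le_mul_of_nonneg_left ?_ hC.le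
            linarith
        _ = 9 * C / ε := by ring
  · intro N
    refine (hthin N).trans (mul_le_mul_of_nonneg_right ?_ (Real.sqrt_nonneg _))
    linarith
  · intro N hN
    simp only at hN
    -- the scale of `N`
    have hex : ∃ m, N < M * 2 ^ (8 * kap ε k0 m + 12) := by
      refine ⟨N, ?_⟩
      have h1 : N ≤ kap ε k0 N := hmono.le_apply
      have h2 : N < 2 ^ N := Nat.lt_two_pow_self
      have h3 : 2 ^ N ≤ 2 ^ (8 * kap ε k0 N + 12) := Nat.pow_le_pow_right (by norm_num) (by omega)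
      have h4 : 1 * 2 ^ (8 * kap ε k0 N + 12) ≤ M * 2 ^ (8 * kap ε k0 N + 12) :=
        Nat.mul_le_mul_right _ (by omega)
      omega
    classical
    obtain ⟨m, hm, hmin⟩ : ∃ m, N < M * 2 ^ (8 * kap ε k0 m + 12) ∧
        ∀ i < m, ¬ N < M * 2 ^ (8 * kap ε k0 i + 12) :=
      ⟨Nat.find hex, Nat.find_spec hex, fun i hi => Nat.find_min hex hi⟩
    have hm0 : m ≠ 0 := by
      rintro rfl
      omega
    obtain ⟨j, rfl⟩ := Nat.exists_eq_succ_of_ne_zero hm0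
    have hj : M * 2 ^ (8 * kap ε k0 j + 12) ≤ N := not_lt.1 (hmin j (Nat.lt_succ_self j))
    set X : ℕ := 2 ^ (8 * kap ε k0 j + 12) with hX
    have hX1 : 1 ≤ X := Nat.one_le_two_pow
    have hcount := count_of_cover hM (hcov' j) hj
    refine le_trans ?_ hcount
    have hXR : (1 : ℝ) ≤ X := by exact_mod_cast hX1
    have hN1 : (1 : ℝ) ≤ N := by
      have h1 : 1 * 1 ≤ M * X := Nat.mul_le_mul (by omega) hX1
      have : 1 ≤ N := by omega
      exact_mod_cast this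
    by_cases hε2 : 1 / 2 ≤ ε
    · calc (N : ℝ) ^ (1 / 2 - ε) ≤ 1 := Real.rpow_le_one_of_one_le_of_nonpos hN1 (by linarith)
        _ ≤ Real.sqrt X := by rw [Real.one_le_sqrt]; exact hXR
    · push Not at hε2
      have he : 0 < 1 / 2 - ε := by linarith
      have hNX : (N : ℝ) ≤ M * (X : ℝ) ^ (1 + ε) := by
        have h1 : (N : ℝ) ≤ M * ((2 ^ (8 * kap ε k0 (j + 1) + 12) : ℕ) : ℝ) := by
          exact_mod_cast hm.le
        exact h1.trans (mul_le_mul_of_nonneg_left (hxs j) (by linarith))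
      have hXε : (M : ℝ) ≤ (X : ℝ) ^ (ε / 2) := by
        rw [hX, Nat.cast_pow, Nat.cast_ofNat, ← Real.rpow_natCast, ← Real.rpow_mul (by norm_num)]
        have h1 : (M : ℝ) ≤ (2 : ℝ) ^ (M : ℝ) := by
          rw [Real.rpow_natCast]
          exact_mod_cast Nat.lt_two_pow_self.le
        refine h1.trans (Real.rpow_le_rpow_of_exponent_le (by norm_num) ?_)
        have h2 : (k0 : ℝ) ≤ kap ε k0 j := by exact_mod_cast kap_ge ε k0 j
        have h3 : (M : ℝ) ≤ ε * (kap ε k0 j : ℝ) := by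
          have := mul_le_mul_of_nonneg_left h2 hε.le
          linarith
        have h4 : (8 * (kap ε k0 j : ℝ) + 12) * (ε / 2) = 4 * (ε * kap ε k0 j) + 6 * ε := by ring
        push_cast
        rw [h4]
        linarith
      have hMe : (M : ℝ) ^ (1 / 2 - ε) ≤ M := by
        calc (M : ℝ) ^ (1 / 2 - ε) ≤ (M : ℝ) ^ (1 : ℝ) :=
              Real.rpow_le_rpow_of_exponent_le (by linarith) (by linarith)
          _ = M := Real.rpow_one _
      calc (N : ℝ) ^ (1 / 2 - ε) ≤ (M * (X : ℝ) ^ (1 + ε)) ^ (1 / 2 - ε) :=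
            Real.rpow_le_rpow (by linarith) hNX he.le
        _ = (M : ℝ) ^ (1 / 2 - ε) * (X : ℝ) ^ ((1 + ε) * (1 / 2 - ε)) := by
            rw [Real.mul_rpow (by linarith) (by positivity), ← Real.rpow_mul (by linarith)]
        _ ≤ M * (X : ℝ) ^ (1 / 2 - ε / 2) := by
            refine mul_le_mul hMe ?_ (by positivity) (by linarith)
            refine Real.rpow_le_rpow_of_exponent_le hXR ?_
            have h5 : (1 + ε) * (1 / 2 - ε) = 1 / 2 - ε / 2 - ε ^ 2 := by ring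
            rw [h5]
            linarith [sq_nonneg ε]
        _ ≤ (X : ℝ) ^ (ε / 2) * (X : ℝ) ^ (1 / 2 - ε / 2) :=
            mul_le_mul_of_nonneg_right hXε (by positivity)
        _ = (X : ℝ) ^ (1 / 2 : ℝ) := by
            rw [← Real.rpow_add (by linarith)]
            congr 1
            ring
        _ = Real.sqrt X := (Real.sqrt_eq_rpow _).symm

end Pool.Agent.Helper667_ET
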